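import Mathlib

set_option autoImplicit false

namespace Pool.Agent.Results.MP_c0e3d8_co.LeveRichomme

variable {A : Type*}

/-- The finite word `x` occurs at position `p` of the infinite word `w`. -/
def OccursAt (x : List A) (w : ℕ → A) (p : ℕ) : Prop :=
  ∀ i : ℕ, i < x.length → x[i]? = some (w (p + i))

/-- The finite word `x` covers the infinite word `w`: every position of `w` lies inside some
occurrence of `x`. -/
def Covers (x : List A) (w : ℕ → A) : Prop :=
  ∀ q : ℕ, ∃ p : ℕ, p ≤ q ∧ q < p + x.length ∧ OccursAt x w p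

/-- An infinite word is quasiperiodic if some finite word covers it. -/
def Quasiperiodic (w : ℕ → A) : Prop := ∃ x : List A, Covers x w

/-- The prefix `w_0 ... w_{n-1}` of length `n` of the infinite word `w`. -/
def pre (w : ℕ → A) (n : ℕ) : List A := (List.range n).map w

/-- The infinite word `v` is the image `f(w) = f(w_0) f(w_1) f(w_2) ...` of the infinite word
`w` under the morphism `f`: every `f(w_0 ... w_{n-1})` is a beginning of `v`, and the lengths of
these words are unbounded. -/
def IsImage (f : FreeMonoid A →* FreeMonoid A) (w v : ℕ → A) : Prop :=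
  (∀ n : ℕ, OccursAt (f (FreeMonoid.ofList (pre w n))).toList v 0) ∧
    ∀ L : ℕ, ∃ n : ℕ, L ≤ (f (FreeMonoid.ofList (pre w n))).length

/-- The morphism `f` generates the infinite word `u = f^ω(a)`: the word `f(a)` begins with `a`,
the lengths of the words `f^n(a)` are unbounded, and every `f^n(a)` is a beginning of `u`. -/
def Generates (f : FreeMonoid A →* FreeMonoid A) (a : A) (u : ℕ → A) : Prop :=
  (∃ t : FreeMonoid A, f (FreeMonoid.of a) = FreeMonoid.of a * t) ∧
    (∀ L : ℕ, ∃ n : ℕ, L ≤ (f^[n] (FreeMonoid.of a)).length) ∧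
    ∀ n : ℕ, OccursAt (f^[n] (FreeMonoid.of a)).toList u 0

/-- The morphism `f` is weakly quasiperiodic on infinite words: some infinite word that is not
quasiperiodic has an infinite image which is quasiperiodic. -/
def WeaklyQuasiperiodic (f : FreeMonoid A →* FreeMonoid A) : Prop :=
  ∃ w v : ℕ → A, ¬ Quasiperiodic w ∧ IsImage f w v ∧ Quasiperiodic v

/-! ### Auxiliary words -/

/-- the infinite word `x w` -/
def app (x : List A) (w : ℕ → A) : ℕ → A := fun n => (x[n]?).getD (w (n - x.length))

/-- the infinite word `x x x ...` (junk if `x` is empty: constant `d`) -/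
def cyc (d : A) (x : List A) : ℕ → A := fun n => (x[n % x.length]?).getD d

/-- factor of length `l` at position `i` -/
def seg (w : ℕ → A) (i l : ℕ) : List A := (List.range l).map (fun k => w (i + k))

@[simp] lemma seg_length (w : ℕ → A) (i l : ℕ) : (seg w i l).length = l := by simp [seg]

@[simp] lemma pre_length (w : ℕ → A) (n : ℕ) : (pre w n).length = n := by simp [pre]

lemma seg_getElem? (w : ℕ → A) (i l k : ℕ) (h : k < l) : (seg w i l)[k]? = some (w (i + k)) := by
  simp [seg, h]

lemma pre_getElem? (w : ℕ → A) (n k : ℕ) (h : k < n) : (pre w n)[k]? = some (w k) := by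
  simp [pre, h]

lemma occursAt_pre (w : ℕ → A) (n : ℕ) : OccursAt (pre w n) w 0 := by
  intro i hi
  rw [pre_length] at hi
  rw [pre_getElem? w n i hi, Nat.zero_add]

lemma occursAt_seg (w : ℕ → A) (i l : ℕ) : OccursAt (seg w i l) w i := by
  intro k hk
  rw [seg_length] at hk
  rw [seg_getElem? w i l k hk]

lemma eq_pre_of_occursAt {x : List A} {w : ℕ → A} (h : OccursAt x w 0) : x = pre w x.length := by
  apply List.ext_getElem?
  intro i
  by_cases hi : i < x.length
  · rw [h i hi, pre_getElem? w _ i hi, Nat.zero_add]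
  · rw [List.getElem?_eq_none (by omega), List.getElem?_eq_none (by simpa using hi)]

lemma eq_seg_of_occursAt {x : List A} {w : ℕ → A} {p : ℕ} (h : OccursAt x w p) :
    x = seg w p x.length := by
  apply List.ext_getElem?
  intro i
  by_cases hi : i < x.length
  · rw [h i hi, seg_getElem? w _ _ i hi]
  · rw [List.getElem?_eq_none (by omega), List.getElem?_eq_none (by simpa using hi)]

lemma occursAt_append {x y : List A} {w : ℕ → A} {p : ℕ} :
    OccursAt (x ++ y) w p ↔ OccursAt x w p ∧ OccursAt y w (p + x.length) := by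
  constructor
  · intro h
    refine ⟨fun i hi => ?_, fun i hi => ?_⟩
    · have := h i (by rw [List.length_append]; omega)
      rwa [List.getElem?_append_left hi] at this
    · have := h (x.length + i) (by rw [List.length_append]; omega)
      rw [List.getElem?_append_right (by omega), Nat.add_sub_cancel_left] at this
      rw [this, Nat.add_assoc]
  · rintro ⟨h1, h2⟩ i hi
    by_cases hx : i < x.length
    · rw [List.getElem?_append_left hx]; exact h1 i hx
    · rw [List.getElem?_append_right (by omega)]
      have := h2 (i - x.length) (by rw [List.length_append] at hi; omega)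
      rw [this]
      congr 2
      omega

lemma pre_add (w : ℕ → A) (m n : ℕ) : pre w (m + n) = pre w m ++ seg w m n := by
  apply List.ext_getElem?
  intro i
  by_cases hi : i < m
  · rw [List.getElem?_append_left (by simpa using hi), pre_getElem? _ _ _ (by omega),
      pre_getElem? _ _ _ hi]
  · rw [List.getElem?_append_right (by simpa using hi), pre_length]
    by_cases hi' : i < m + n
    · rw [pre_getElem? _ _ _ hi', seg_getElem? _ _ _ _ (by omega)]
      congr 2; omega
    · rw [List.getElem?_eq_none (by simpa using hi'), List.getElem?_eq_none (by simp; omega)]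

lemma pre_succ (w : ℕ → A) (m : ℕ) : pre w (m + 1) = pre w m ++ [w m] := by
  rw [pre_add]
  rfl

lemma app_left {x : List A} {w : ℕ → A} {n : ℕ} (h : n < x.length) :
    x[n]? = some (app x w n) := by
  unfold app
  rw [List.getElem?_eq_getElem h]; rfl

lemma app_right (x : List A) (w : ℕ → A) (n : ℕ) : app x w (x.length + n) = w n := by
  unfold app
  rw [List.getElem?_eq_none (by omega), Nat.add_sub_cancel_left]; rfl

lemma app_right' (x : List A) (w : ℕ → A) {n : ℕ} (h : x.length ≤ n) :
    app x w n = w (n - x.length) := by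
  obtain ⟨m, rfl⟩ := Nat.exists_eq_add_of_le h
  rw [app_right, Nat.add_sub_cancel_left]

lemma occursAt_app_left (x : List A) (w : ℕ → A) : OccursAt x (app x w) 0 := by
  intro i hi
  rw [app_left hi, Nat.zero_add]

lemma occursAt_app_right {x y : List A} {w : ℕ → A} {p : ℕ} (h : OccursAt y w p) :
    OccursAt y (app x w) (x.length + p) := by
  intro i hi
  rw [Nat.add_assoc, app_right, h i hi]

lemma cyc_eq {d : A} {x : List A} {n : ℕ} (h : 0 < x.length) :
    x[n % x.length]? = some (cyc d x n) := by
  unfold cyc
  rw [List.getElem?_eq_getElem (Nat.mod_lt _ h)]; rfl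

lemma cyc_add (d : A) (x : List A) (k n : ℕ) :
    cyc d x (k * x.length + n) = cyc d x n := by
  unfold cyc
  rw [Nat.add_comm, Nat.add_mul_mod_self_right]

lemma occursAt_cyc (d : A) (x : List A) (k : ℕ) : OccursAt x (cyc d x) (k * x.length) := by
  intro i hi
  rw [cyc_add, ← cyc_eq (by omega), Nat.mod_eq_of_lt hi]

lemma OccursAt.mono {x L : List A} {z : ℕ → A} {P c : ℕ} (hL : OccursAt L z P)
    (hx : ∀ i, i < x.length → x[i]? = L[c + i]?) : OccursAt x z (P + c) := by
  intro i hi
  rw [hx i hi]
  by_cases h : c + i < L.length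
  · rw [hL _ h, Nat.add_assoc]
  · exfalso
    have h1 := hx i hi
    rw [List.getElem?_eq_none (l := L) (by omega), List.getElem?_eq_getElem hi] at h1
    cases h1


/-! ### Morphisms on lists -/

/-- `F` is a morphism of the free monoid (list version) -/
structure Mor (F : List A → List A) : Prop where
  nil : F [] = []
  append : ∀ x y : List A, F (x ++ y) = F x ++ F y

lemma Mor.comp {F G : List A → List A} (hG : Mor G) (hF : Mor F) : Mor (G ∘ F) where
  nil := by simp [hF.nil, hG.nil]
  append x y := by simp [hF.append, hG.append]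

lemma Mor.iterate {F : List A → List A} (hF : Mor F) (n : ℕ) : Mor (F^[n]) := by
  induction n with
  | zero => exact ⟨rfl, fun _ _ => rfl⟩
  | succ n ih => rw [Function.iterate_succ]; exact ih.comp hF

/-- list version of `IsImage` -/
def ImgOf (F : List A → List A) (w v : ℕ → A) : Prop :=
  (∀ n : ℕ, OccursAt (F (pre w n)) v 0) ∧ ∀ L : ℕ, ∃ n : ℕ, L ≤ (F (pre w n)).length

lemma ImgOf.occurs {F : List A → List A} (hF : Mor F) {w v : ℕ → A} (h : ImgOf F w v)
    {L : List A} {P : ℕ} (hL : OccursAt L w P) : OccursAt (F L) v (F (pre w P)).length := by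
  have h1 := h.1 (P + L.length)
  rw [pre_add, ← eq_seg_of_occursAt hL, hF.append, occursAt_append] at h1
  simpa using h1.2

lemma exists_img {F : List A → List A} (hF : Mor F) {w : ℕ → A}
    (h : ∀ L : ℕ, ∃ n : ℕ, L ≤ (F (pre w n)).length) : ∃ v, ImgOf F w v := by
  choose N hN using h
  refine ⟨fun i => (F (pre w (N (i + 1))))[i]'(hN (i + 1)), ?_, fun L => ⟨N L, hN L⟩⟩
  intro n i hi
  have key : ∀ m, i < (F (pre w m)).length → ∀ k, (F (pre w (m + k)))[i]? = (F (pre w m))[i]? := by
    intro m hm k
    rw [pre_add, hF.append, List.getElem?_append_left hm]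
  have h2 : i < (F (pre w (N (i + 1)))).length := hN (i + 1)
  rw [Nat.zero_add, ← List.getElem?_eq_getElem h2]
  rcases le_total n (N (i + 1)) with hle | hle
  · obtain ⟨k, hk⟩ := Nat.exists_eq_add_of_le hle
    rw [hk, key n hi k]
  · obtain ⟨k, hk⟩ := Nat.exists_eq_add_of_le hle
    rw [hk, key _ h2 k]

lemma ImgOf.tail {F G : List A → List A} (hG : Mor G) {w v z : ℕ → A}
    (h1 : ImgOf (G ∘ F) w z) (h2 : ImgOf F w v) : ImgOf G v z := by
  constructor
  · intro m
    obtain ⟨k, hk⟩ := h2.2 m
    have h3 := h1.1 k
    rw [Function.comp_apply, eq_pre_of_occursAt (h2.1 k)] at h3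
    obtain ⟨j, hj⟩ := Nat.exists_eq_add_of_le hk
    rw [hj, pre_add, hG.append, occursAt_append] at h3
    exact h3.1
  · intro L
    obtain ⟨k, hk⟩ := h1.2 L
    refine ⟨(F (pre w k)).length, ?_⟩
    rw [Function.comp_apply, eq_pre_of_occursAt (h2.1 k)] at hk
    exact hk

/-- `a` occurs infinitely often in `w` -/
def InfA (a : A) (w : ℕ → A) : Prop := ∀ N : ℕ, ∃ m, N ≤ m ∧ w m = a

lemma InfA.unbounded {F : List A → List A} (hF : Mor F) {a : A} {t : List A}
    (hFa : F [a] = a :: t) {w : ℕ → A} (hw : InfA a w) :
    ∀ L : ℕ, ∃ n : ℕ, L ≤ (F (pre w n)).length := by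
  intro L
  induction L with
  | zero => exact ⟨0, Nat.zero_le _⟩
  | succ L ih =>
    obtain ⟨n, hn⟩ := ih
    obtain ⟨m, hm, hma⟩ := hw n
    refine ⟨m + 1, ?_⟩
    obtain ⟨k, rfl⟩ := Nat.exists_eq_add_of_le hm
    rw [pre_succ, hF.append, hma, hFa, pre_add, hF.append]
    simp only [List.length_append, List.length_cons]
    omega

lemma InfA.img {F : List A → List A} (hF : Mor F) {a : A} {t : List A}
    (hFa : F [a] = a :: t) {w v : ℕ → A} (hw : InfA a w) (h : ImgOf F w v) : InfA a v := by
  intro N
  obtain ⟨n, hn⟩ := h.2 N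
  obtain ⟨m, hm, hma⟩ := hw n
  refine ⟨(F (pre w m)).length, ?_, ?_⟩
  · obtain ⟨k, rfl⟩ := Nat.exists_eq_add_of_le hm
    rw [pre_add, hF.append, List.length_append]
    omega
  · have h1 : OccursAt [a] w m := by
      intro i hi
      have : i = 0 := by simpa using hi
      subst this
      simp [hma]
    have h2 := h.occurs hF h1 0 (by rw [hFa]; simp)
    rw [hFa] at h2
    simpa using h2.symm

/-- if some iterate maps a non-quasiperiodic word to a quasiperiodic word, so does `F` -/
lemma descend {F : List A → List A} (hF : Mor F) {a : A} {t : List A}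
    (hFa : F [a] = a :: t) (n : ℕ) : ∀ w z : ℕ → A, InfA a w → ¬ Quasiperiodic w →
    ImgOf (F^[n]) w z → Quasiperiodic z →
    ∃ w' v' : ℕ → A, ¬ Quasiperiodic w' ∧ ImgOf F w' v' ∧ Quasiperiodic v' := by
  induction n with
  | zero =>
    intro w z _ hw hz hqz
    exfalso
    apply hw
    have : z = w := by
      funext i
      have h1 := hz.1 (i + 1) i (by simp)
      rw [Function.iterate_zero, id, pre_getElem? w _ i (by omega), Nat.zero_add] at h1
      simpa using h1.symm
    rwa [this] at hqz
  | succ n ih =>
    intro w z hia hw hz hqz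
    obtain ⟨v, hv⟩ := exists_img hF (hia.unbounded hF hFa)
    by_cases hqv : Quasiperiodic v
    · exact ⟨w, v, hw, hv, hqv⟩
    · rw [Function.iterate_succ] at hz
      exact ih v z (hia.img hF hFa hv) hqv (hz.tail (hF.iterate n) hv) hqz

/-- `s` repeated `k` times -/
def rep (k : ℕ) (s : List A) : List A := (List.replicate k s).flatten

lemma rep_succ (k : ℕ) (s : List A) : rep (k + 1) s = rep k s ++ s := by
  unfold rep
  rw [List.replicate_succ', List.flatten_append]
  simp

lemma rep_length (k : ℕ) (s : List A) : (rep k s).length = k * s.length := by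
  induction k with
  | zero => simp [rep]
  | succ k ih => rw [rep_succ, List.length_append, ih]; ring

lemma occursAt_rep (d : A) (k : ℕ) (s : List A) : OccursAt (rep k s) (cyc d s) 0 := by
  induction k with
  | zero => intro i hi; simp [rep] at hi
  | succ k ih =>
    rw [rep_succ, occursAt_append]
    refine ⟨ih, ?_⟩
    rw [Nat.zero_add, rep_length]
    exact occursAt_cyc d s k

lemma Mor.rep {G : List A → List A} (hG : Mor G) (k : ℕ) (s : List A) :
    G (rep k s) = rep k (G s) := by
  induction k with
  | zero => simp [LeveRichomme.rep, hG.nil]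
  | succ k ih => rw [rep_succ, hG.append, ih, rep_succ]

lemma imgOf_app_cyc {G : List A → List A} (hG : Mor G) (d : A) (r s : List A)
    (hs : 0 < s.length) (hGs : 0 < (G s).length) :
    ImgOf G (app r (cyc d s)) (app (G r) (cyc d (G s))) := by
  have key : ∀ k, pre (app r (cyc d s)) (r.length + k * s.length) = r ++ rep k s := by
    intro k
    have h : OccursAt (r ++ rep k s) (app r (cyc d s)) 0 := by
      rw [occursAt_append]
      refine ⟨occursAt_app_left _ _, ?_⟩
      rw [Nat.zero_add]
      exact occursAt_app_right (occursAt_rep d k s)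
    have h2 := eq_pre_of_occursAt h
    rw [List.length_append, rep_length] at h2
    exact h2.symm
  have key2 : ∀ k, OccursAt (G (r ++ rep k s)) (app (G r) (cyc d (G s))) 0 := by
    intro k
    rw [hG.append, hG.rep, occursAt_append]
    refine ⟨occursAt_app_left _ _, ?_⟩
    rw [Nat.zero_add]
    exact occursAt_app_right (occursAt_rep d k (G s))
  constructor
  · intro n
    have hk : n ≤ r.length + n * s.length := by nlinarith
    obtain ⟨j, hj⟩ := Nat.exists_eq_add_of_le hk
    have h := key2 n
    rw [← key, hj, pre_add, hG.append, occursAt_append] at h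
    exact h.1
  · intro L
    refine ⟨r.length + L * s.length, ?_⟩
    rw [key, hG.append, hG.rep, List.length_append, rep_length]
    nlinarith

/-! ### Words that are not quasiperiodic -/

lemma infA_app_cyc (a : A) (r s : List A) (hs : 0 < s.length) (h0 : s[0]? = some a) :
    InfA a (app r (cyc a s)) := by
  intro N
  refine ⟨r.length + (N * s.length + 0), by nlinarith, ?_⟩
  rw [app_right, cyc_add]
  have := cyc_eq (d := a) (n := 0) hs
  rw [Nat.zero_mod, h0] at this
  simpa using this.symm

lemma not_qp_two {a : A} {s1 s2 : List A} (h1 : a ∉ s1) (h2 : a ∉ s2) (hne : s1 ≠ s2) :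
    ¬ Quasiperiodic (app (a :: s1) (cyc a (a :: s2))) := by
  rintro ⟨y, hy⟩
  set w := app (a :: s1) (cyc a (a :: s2)) with hw
  have hwl : ∀ i, i < s1.length + 1 → (a :: s1)[i]? = some (w i) := fun i hi =>
    app_left (by simpa using hi)
  have hwr : ∀ i, w (s1.length + 1 + i) = cyc a (a :: s2) i := fun i => by
    have := app_right (a :: s1) (cyc a (a :: s2)) i
    simpa using this
  have hcyc : ∀ k i, i < s2.length + 1 →
      (a :: s2)[i]? = some (w (s1.length + 1 + k * (s2.length + 1) + i)) := by
    intro k i hi
    have h3 : (a :: s2)[i % (a :: s2).length]? = some (cyc a (a :: s2) i) :=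
      cyc_eq (by simp)
    rw [Nat.mod_eq_of_lt (by simpa using hi)] at h3
    rw [h3, Nat.add_assoc, hwr]
    have := cyc_add a (a :: s2) k i
    rw [List.length_cons] at this
    rw [this]
  have hw0 : w 0 = a := by
    have := hwl 0 (by omega)
    simpa using this.symm
  have ha1 : ∀ i, i < s1.length → w (i + 1) ≠ a := by
    intro i hi heq
    have := hwl (i + 1) (by omega)
    rw [List.getElem?_cons_succ, heq] at this
    exact h1 (List.mem_of_getElem? this)
  have ha2 : ∀ k i, i < s2.length → w (s1.length + 1 + k * (s2.length + 1) + (i + 1)) ≠ a := by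
    intro k i hi heq
    have := hcyc k (i + 1) (by omega)
    rw [List.getElem?_cons_succ, heq] at this
    exact h2 (List.mem_of_getElem? this)
  -- positions of `a`
  have hpos : ∀ p, w p = a → p = 0 ∨ ∃ k, p = s1.length + 1 + k * (s2.length + 1) := by
    intro p hp
    by_cases hp1 : p < s1.length + 1
    · left
      by_contra h0
      obtain ⟨i, rfl⟩ := Nat.exists_eq_succ_of_ne_zero h0
      exact ha1 i (by omega) hp
    · right
      obtain ⟨j, rfl⟩ := Nat.exists_eq_add_of_le (not_lt.mp hp1)
      refine ⟨j / (s2.length + 1), ?_⟩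
      have hj := Nat.div_add_mod j (s2.length + 1)
      have hjm := Nat.mod_lt j (show 0 < s2.length + 1 by omega)
      rcases Nat.eq_zero_or_pos (j % (s2.length + 1)) with h0 | h0
      · rw [h0] at hj
        rw [Nat.mul_comm (j / (s2.length + 1))]
        omega
      · exfalso
        obtain ⟨i, hi⟩ := Nat.exists_eq_succ_of_ne_zero (Nat.pos_iff_ne_zero.mp h0)
        apply ha2 (j / (s2.length + 1)) i (by omega)
        rw [← hp]
        congr 1
        rw [Nat.mul_comm (j / (s2.length + 1))]
        omega
  -- first letter of `y`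
  obtain ⟨p0, hp0, hp0', hocc0⟩ := hy 0
  have hp00 : p0 = 0 := by omega
  subst hp00
  have hylen : 0 < y.length := by omega
  have hy0 : y[0]? = some a := by rw [hocc0 0 hylen, Nat.zero_add, hw0]
  have hstart : ∀ p, OccursAt y w p → w p = a := by
    intro p hp
    have := hp 0 hylen
    rw [hy0] at this
    simpa using this.symm
  -- an occurrence far away
  obtain ⟨p, hp1, hp2, hocc⟩ := hy (s1.length + y.length)
  have hfar : ∃ k, OccursAt y w (s1.length + 1 + k * (s2.length + 1)) := by
    rcases hpos p (hstart p hocc) with h0 | ⟨k, hk⟩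
    · omega
    · exact ⟨k, hk ▸ hocc⟩
  obtain ⟨k, hk⟩ := hfar
  -- y has length at least s1.length + 1
  have hlen1 : s1.length + 1 ≤ y.length := by
    obtain ⟨p, hp1, hp2, hocc⟩ := hy s1.length
    rcases hpos p (hstart p hocc) with h0 | ⟨k, hk⟩
    · omega
    · exfalso
      have : 0 ≤ k * (s2.length + 1) := Nat.zero_le _
      omega
  have hlen2 : s2.length + 1 ≤ y.length := by
    obtain ⟨p, hp1, hp2, hocc⟩ := hy (s1.length + 1 + s2.length)
    rcases hpos p (hstart p hocc) with h0 | ⟨k, hk⟩
    · omega
    · rcases Nat.eq_zero_or_pos k with hk0 | hk0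
      · subst hk0; omega
      · exfalso
        have : s2.length + 1 ≤ k * (s2.length + 1) := Nat.le_mul_of_pos_left _ hk0
        omega
  -- compare
  have hcmp : ∀ i, i < s1.length + 1 → i < s2.length + 1 → (a :: s1)[i]? = (a :: s2)[i]? := by
    intro i hi1 hi2
    rw [hcyc k i hi2, ← hk i (by omega), hocc0 i (by omega), Nat.zero_add, hwl i hi1]
  rcases Nat.lt_trichotomy s1.length s2.length with hlt | heq | hlt
  · -- w at position s1.length + 1 is a, which is y[s1.length+1] if long enough
    -- use that an occurrence at far position reads a letter different from a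
    have hlen3 : s1.length + 1 < y.length := by omega
    have e1 := hocc0 (s1.length + 1) hlen3
    have e2 := hk (s1.length + 1) hlen3
    rw [e1] at e2
    have e3 : w (0 + (s1.length + 1)) = a := by
      have := hcyc 0 0 (by omega)
      simpa using this.symm
    rw [e3] at e2
    exact ha2 k s1.length hlt (by simpa using e2.symm)
  · apply hne
    have : (a :: s1) = (a :: s2) := by
      apply List.ext_getElem?
      intro i
      by_cases hi : i < s1.length + 1
      · exact hcmp i hi (by omega)
      · rw [List.getElem?_eq_none (by simp; omega), List.getElem?_eq_none (by simp; omega)]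
    simpa using this
  · -- position s2.length + 1 of the far occurrence is a
    have hlen3 : s2.length + 1 < y.length := by omega
    have e1 := hocc0 (s2.length + 1) hlen3
    have e2 := hk (s2.length + 1) hlen3
    rw [e1] at e2
    have e3 : w (s1.length + 1 + k * (s2.length + 1) + (s2.length + 1)) = a := by
      have := hcyc (k + 1) 0 (by omega)
      rw [show s1.length + 1 + (k + 1) * (s2.length + 1) + 0
        = s1.length + 1 + k * (s2.length + 1) + (s2.length + 1) by ring] at this
      simpa using this.symm
    rw [e3] at e2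
    apply ha1 s2.length hlt
    simpa using e2

lemma not_qp_tail {a b : A} {r : List A} (hb : b ∈ r) (hba : b ≠ a) :
    ¬ Quasiperiodic (app r (cyc a [a])) := by
  rintro ⟨y, hy⟩
  obtain ⟨p, hp1, hp2, hocc⟩ := hy (r.length + y.length)
  obtain ⟨j, hj⟩ := Nat.exists_eq_add_of_le (show r.length ≤ p by omega)
  have hya : ∀ i, i < y.length → y[i]? = some a := by
    intro i hi
    rw [hocc i hi, hj, Nat.add_assoc, app_right]
    have := cyc_eq (d := a) (x := [a]) (n := j + i) (by simp)
    rw [← this]
    simp [Nat.mod_one]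
  obtain ⟨i, hi, hib⟩ := List.getElem_of_mem hb
  obtain ⟨p, hp1, hp2, hocc⟩ := hy i
  obtain ⟨j, hj⟩ := Nat.exists_eq_add_of_le hp1
  have h1 := hocc j (by omega)
  rw [hya j (by omega), ← hj, ← app_left hi, List.getElem?_eq_getElem hi, hib] at h1
  apply hba
  simpa using h1.symm

/-! ### The main argument -/

/-- the list version of the hypothesis that `F` generates `u` from `a` -/
structure Gen (F : List A → List A) (a : A) (t : List A) (u : ℕ → A) : Prop where
  mor : Mor F
  head : F [a] = a :: t
  unbdd : ∀ L : ℕ, ∃ n : ℕ, L ≤ (F^[n] [a]).length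
  pref : ∀ n : ℕ, OccursAt (F^[n] [a]) u 0

lemma Gen.mono {F : List A → List A} {a : A} {t : List A} {u : ℕ → A} (h : Gen F a t u)
    (n k : ℕ) : (F^[n] [a]).length ≤ (F^[n + k] [a]).length := by
  induction k with
  | zero => exact le_rfl
  | succ k ih =>
    refine ih.trans ?_
    rw [← Nat.add_assoc, Function.iterate_succ_apply, h.head,
      show a :: t = [a] ++ t from rfl, (h.mor.iterate (n + k)).append, List.length_append]
    omega

lemma Gen.pos {F : List A → List A} {a : A} {t : List A} {u : ℕ → A} (h : Gen F a t u)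
    (n : ℕ) : 0 < (F^[n] [a]).length := by
  have := h.mono 0 n
  simp only [Function.iterate_zero, id, List.length_cons, List.length_nil, zero_add] at this
  exact this

lemma Gen.u0 {F : List A → List A} {a : A} {t : List A} {u : ℕ → A} (h : Gen F a t u) :
    u 0 = a := by
  have := h.pref 0 0 (by simp)
  simpa using this.symm

lemma Gen.self_img {F : List A → List A} {a : A} {t : List A} {u : ℕ → A} (h : Gen F a t u)
    (n : ℕ) : ImgOf (F^[n]) u u := by
  have hG := h.mor.iterate n
  constructor
  · intro m
    obtain ⟨k, hk⟩ := h.unbdd m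
    obtain ⟨j, hj⟩ := Nat.exists_eq_add_of_le hk
    have h1 := h.pref (n + k)
    rw [Function.iterate_add_apply, eq_pre_of_occursAt (h.pref k), hj, pre_add, hG.append,
      occursAt_append] at h1
    exact h1.1
  · intro L
    obtain ⟨k, hk⟩ := h.unbdd L
    refine ⟨(F^[k] [a]).length, ?_⟩
    rw [← eq_pre_of_occursAt (h.pref k), ← Function.iterate_add_apply, Nat.add_comm]
    exact hk.trans (h.mono k n)

lemma cover_block {G : List A → List A} (hG : Mor G) {a : A} {u : ℕ → A} {x : List A}
    (hu : ImgOf G u u) (hx : Covers x u) (hGa : OccursAt (G [a]) u 0)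
    (hxG : x.length ≤ (G [a]).length) {s : List A} {P : ℕ}
    (hP : OccursAt (a :: s ++ [a]) u P) :
    ∀ t, t < (G (a :: s)).length → ∃ c, c ≤ t ∧ t < c + x.length ∧
      ∀ i, i < x.length → x[i]? = (G (a :: s) ++ G [a])[c + i]? := by
  intro t ht
  have hocc := hu.occurs hG hP
  rw [hG.append] at hocc
  set Q := (G (pre u P)).length with hQ
  obtain ⟨p, hp1, hp2, hxp⟩ := hx (Q + t)
  by_cases hpQ : Q ≤ p
  · obtain ⟨c, rfl⟩ := Nat.exists_eq_add_of_le hpQ
    refine ⟨c, by omega, by omega, fun i hi => ?_⟩
    rw [hxp i hi, hocc (c + i) (by rw [List.length_append]; omega), Nat.add_assoc]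
  · refine ⟨0, Nat.zero_le _, by omega, fun i hi => ?_⟩
    -- x is a beginning of u
    obtain ⟨p0, hp0, hp0', hocc0⟩ := hx 0
    have hp00 : p0 = 0 := by omega
    subst hp00
    have h1 : (G (a :: s))[i]? = (G [a])[i]? := by
      rw [show a :: s = [a] ++ s from rfl, hG.append, List.getElem?_append_left (by omega)]
    have h2 : i < (G (a :: s)).length := by
      rw [show a :: s = [a] ++ s from rfl, hG.append, List.length_append]
      omega
    rw [Nat.zero_add, List.getElem?_append_left h2, h1, hocc0 i hi, hGa i (by omega)]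

lemma main_two {F : List A → List A} {a : A} {t : List A} {u : ℕ → A} (h : Gen F a t u)
    {x : List A} (hx : Covers x u) {s1 s2 : List A} {P1 P2 : ℕ}
    (h1 : OccursAt (a :: s1 ++ [a]) u P1) (h2 : OccursAt (a :: s2 ++ [a]) u P2)
    (ha1 : a ∉ s1) (ha2 : a ∉ s2) (hne : s1 ≠ s2) :
    ∃ w' v' : ℕ → A, ¬ Quasiperiodic w' ∧ ImgOf F w' v' ∧ Quasiperiodic v' := by
  obtain ⟨n, hn⟩ := h.unbdd x.length
  have hG := h.mor.iterate n
  set G := F^[n] with hGdef
  have hGa : 0 < (G [a]).length := h.pos n
  have hGs : ∀ s, (G (a :: s)) = G [a] ++ G s := fun s => by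
    rw [← hG.append]; rfl
  have hGs2 : 0 < (G (a :: s2)).length := by
    rw [hGs, List.length_append]; omega
  refine descend h.mor h.head n (app (a :: s1) (cyc a (a :: s2)))
    (app (G (a :: s1)) (cyc a (G (a :: s2)))) (infA_app_cyc a _ _ (by simp) (by simp))
    (not_qp_two ha1 ha2 hne) (imgOf_app_cyc hG a _ _ (by simp) hGs2) ⟨x, ?_⟩
  set z := app (G (a :: s1)) (cyc a (G (a :: s2))) with hz
  -- the block G(a s2) G(a) occurs at each block start
  have hb2 : ∀ k, OccursAt (G (a :: s2) ++ G [a]) z
      ((G (a :: s1)).length + k * (G (a :: s2)).length) := by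
    intro k
    have e1 : OccursAt (G (a :: s2) ++ G (a :: s2)) (cyc a (G (a :: s2)))
        (k * (G (a :: s2)).length) := by
      rw [occursAt_append]
      refine ⟨occursAt_cyc _ _ _, ?_⟩
      rw [← Nat.succ_mul]
      exact occursAt_cyc _ _ _
    have e2 := occursAt_app_right (x := G (a :: s1)) e1
    rw [occursAt_append] at e2 ⊢
    refine ⟨e2.1, ?_⟩
    have e3 := e2.2
    rw [hGs s2, occursAt_append, ← hGs s2] at e3
    exact e3.1
  have hb1 : OccursAt (G (a :: s1) ++ G [a]) z 0 := by
    rw [occursAt_append]
    refine ⟨occursAt_app_left _ _, ?_⟩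
    have e2 := hb2 0
    rw [hGs s2, List.append_assoc, occursAt_append] at e2
    simpa using e2.1
  have c1 := cover_block hG (h.self_img n) hx (h.pref n) hn h1
  have c2 := cover_block hG (h.self_img n) hx (h.pref n) hn h2
  intro q
  by_cases hq : q < (G (a :: s1)).length
  · obtain ⟨c, hc1, hc2, hc3⟩ := c1 q hq
    refine ⟨c, hc1, hc2, ?_⟩
    have := hb1.mono hc3
    rwa [Nat.zero_add] at this
  · obtain ⟨j, rfl⟩ := Nat.exists_eq_add_of_le (not_lt.mp hq)
    have hj := Nat.div_add_mod j (G (a :: s2)).length
    have hjm := Nat.mod_lt j hGs2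
    obtain ⟨c, hc1, hc2, hc3⟩ := c2 _ hjm
    rw [Nat.mul_comm] at hj
    refine ⟨(G (a :: s1)).length + j / (G (a :: s2)).length * (G (a :: s2)).length + c,
      by omega, by omega, ?_⟩
    exact (hb2 _).mono hc3

lemma main_one {F : List A → List A} {a : A} {t : List A} {u : ℕ → A} (h : Gen F a t u)
    {s : List A} {b : A} (hb : b ∈ a :: s) (hba : b ≠ a)
    (hu : ∀ k, OccursAt (a :: s) u (k * (a :: s).length)) :
    ∃ w' v' : ℕ → A, ¬ Quasiperiodic w' ∧ ImgOf F w' v' ∧ Quasiperiodic v' := by
  obtain ⟨n, hn⟩ := h.unbdd (a :: s).length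
  have hG := h.mor.iterate n
  set G := F^[n] with hGdef
  have hGa : 0 < (G [a]).length := h.pos n
  have hGs : ∀ s, (G (a :: s)) = G [a] ++ G s := fun s => by
    rw [← hG.append]; rfl
  refine descend h.mor h.head n (app (a :: s) (cyc a [a]))
    (app (G (a :: s)) (cyc a (G [a]))) (infA_app_cyc a _ _ (by simp) (by simp))
    (not_qp_tail hb hba) (imgOf_app_cyc hG a _ _ (by simp) hGa) ⟨G [a], ?_⟩
  set z := app (G (a :: s)) (cyc a (G [a])) with hz
  have hb2 : ∀ k, OccursAt (G [a]) z ((G (a :: s)).length + k * (G [a]).length) := fun k =>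
    occursAt_app_right (occursAt_cyc _ _ _)
  have hb1 : OccursAt (G (a :: s) ++ G [a]) z 0 := by
    rw [occursAt_append]
    refine ⟨occursAt_app_left _ _, ?_⟩
    simpa using hb2 0
  -- the same word is a beginning of u
  have hb3 : OccursAt (G (a :: s) ++ G [a]) u 0 := by
    have e1 : OccursAt (a :: s ++ [a]) u 0 := by
      rw [occursAt_append]
      refine ⟨by simpa using hu 0, ?_⟩
      have e2 := hu 1
      rw [show a :: s = [a] ++ s from rfl, occursAt_append] at e2
      simpa using e2.1
    have e3 := (h.self_img n).occurs hG e1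
    rw [hG.append] at e3
    simpa [pre, hG.nil] using e3
  -- u is periodic
  set Lr := (a :: s).length with hLr
  have hLr0 : 0 < Lr := by simp [hLr]
  have hper : ∀ k i, u (k * Lr + i) = u i := by
    have hstep : ∀ k i, i < Lr → u (k * Lr + i) = u i := by
      intro k i hi
      have e1 := hu k i hi
      have e2 := hu 0 i hi
      rw [e1] at e2
      simpa using e2
    intro k i
    have hi := Nat.div_add_mod i Lr
    have him := Nat.mod_lt i hLr0
    have e1 := hstep (k + i / Lr) (i % Lr) him
    have e2 := hstep (i / Lr) (i % Lr) him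
    rw [Nat.mul_comm (i / Lr), hi] at e2
    rw [Nat.add_mul, Nat.add_assoc, Nat.mul_comm (i / Lr), hi] at e1
    rw [e1, e2]
  intro q
  by_cases hq : q < (G (a :: s)).length
  · have hqd := Nat.div_add_mod q Lr
    have hqm := Nat.mod_lt q hLr0
    refine ⟨q / Lr * Lr, Nat.div_mul_le_self _ _, ?_, ?_⟩
    · rw [Nat.mul_comm]; omega
    · have hle : q / Lr * Lr ≤ q := Nat.div_mul_le_self _ _
      have e := OccursAt.mono (x := G [a]) (c := q / Lr * Lr) hb1 (fun i hi => by
        rw [hb3 (q / Lr * Lr + i) (by rw [List.length_append]; omega), Nat.zero_add, hper,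
          (h.pref n) i hi, Nat.zero_add])
      rwa [Nat.zero_add] at e
  · obtain ⟨j, rfl⟩ := Nat.exists_eq_add_of_le (not_lt.mp hq)
    have hj := Nat.div_add_mod j (G [a]).length
    have hjm := Nat.mod_lt j hGa
    rw [Nat.mul_comm] at hj
    exact ⟨_, by omega, by omega, hb2 (j / (G [a]).length)⟩

lemma main {F : List A → List A} {a : A} {t : List A} {u : ℕ → A} (h : Gen F a t u)
    (hq : Quasiperiodic u) (hpow : ∃ b ∈ F [a], b ≠ a) :
    ∃ w' v' : ℕ → A, ¬ Quasiperiodic w' ∧ ImgOf F w' v' ∧ Quasiperiodic v' := by
  obtain ⟨x, hx⟩ := hq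
  have hu0 := h.u0
  -- `a` occurs infinitely often
  obtain ⟨p0, hp0, hp0', hocc0⟩ := hx 0
  have hp00 : p0 = 0 := by omega
  subst hp00
  have hxlen : 0 < x.length := by omega
  have hx0 : x[0]? = some a := by rw [hocc0 0 hxlen, Nat.zero_add, hu0]
  have hinf : ∀ p, ∃ m, p < m ∧ u m = a := by
    intro p
    obtain ⟨m, hm1, hm2, hm3⟩ := hx (p + x.length)
    refine ⟨m, by omega, ?_⟩
    have := hm3 0 hxlen
    rw [hx0] at this
    simpa using this.symm
  classical
  let nxt : ℕ → ℕ := fun p => Nat.find (hinf p)
  have hnxt1 : ∀ p, p < nxt p := fun p => (Nat.find_spec (hinf p)).1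
  have hnxt2 : ∀ p, u (nxt p) = a := fun p => (Nat.find_spec (hinf p)).2
  have hnxt3 : ∀ p q, p < q → q < nxt p → u q ≠ a := fun p q h1 h2 h3 =>
    Nat.find_min (hinf p) h2 ⟨h1, h3⟩
  -- the return block after position `p`, without its first letter
  let blk : ℕ → List A := fun p => seg u (p + 1) (nxt p - (p + 1))
  have hblk_len : ∀ p, (blk p).length + 1 = nxt p - p := fun p => by
    have := hnxt1 p
    simp only [blk, seg_length]
    omega
  have hblk_na : ∀ p, a ∉ blk p := by
    intro p hmem
    obtain ⟨i, hi, hia⟩ := List.getElem_of_mem hmem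
    have hi' : i < nxt p - (p + 1) := by simpa [blk] using hi
    have e1 := seg_getElem? u (p + 1) (nxt p - (p + 1)) i hi'
    have e2 : (blk p)[i]? = some a := by rw [List.getElem?_eq_getElem hi, hia]
    rw [show (blk p)[i]? = some (u (p + 1 + i)) from e1] at e2
    exact hnxt3 p (p + 1 + i) (by omega) (by omega) (by simpa using e2)
  have hblk_occ : ∀ p, u p = a → OccursAt (a :: blk p ++ [a]) u p := by
    intro p hp
    rw [occursAt_append]
    constructor
    · rw [show a :: blk p = [a] ++ blk p from rfl, occursAt_append]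
      refine ⟨?_, occursAt_seg _ _ _⟩
      intro i hi
      have : i = 0 := by simpa using hi
      subst this
      simp [hp]
    · intro i hi
      have : i = 0 := by simpa using hi
      subst this
      have e1 := hblk_len p
      have e2 := hnxt1 p
      rw [List.length_cons, show p + ((blk p).length + 1) + 0 = nxt p by omega, hnxt2]
      simp
  -- positions of `a`
  have hposa : ∀ k, u (nxt^[k] 0) = a := by
    intro k
    cases k with
    | zero => exact hu0
    | succ k => rw [Function.iterate_succ_apply']; exact hnxt2 _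
  by_cases hall : ∀ k, blk (nxt^[k] 0) = blk 0
  · -- u is periodic
    have hpos : ∀ k, nxt^[k] 0 = k * (a :: blk 0).length := by
      intro k
      induction k with
      | zero => simp
      | succ k ih =>
        have e1 := hblk_len (nxt^[k] 0)
        have e2 := hnxt1 (nxt^[k] 0)
        rw [hall k] at e1
        rw [Function.iterate_succ_apply', Nat.succ_mul, List.length_cons]
        rw [List.length_cons] at ih
        omega
    have hu : ∀ k, OccursAt (a :: blk 0) u (k * (a :: blk 0).length) := by
      intro k
      have e1 := hblk_occ _ (hposa k)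
      rw [occursAt_append, hall k] at e1
      rw [← hpos]
      exact e1.1
    obtain ⟨b, hb, hba⟩ := hpow
    have hbs : b ∈ a :: blk 0 := by
      obtain ⟨i, hi, hib⟩ := List.getElem_of_mem hb
      have e1 := h.pref 1 i (by simpa using hi)
      rw [Function.iterate_one, List.getElem?_eq_getElem hi, hib, Nat.zero_add] at e1
      have hd := Nat.div_add_mod i (a :: blk 0).length
      have hm := Nat.mod_lt i (show 0 < (a :: blk 0).length by simp)
      have e2 := hu (i / (a :: blk 0).length) (i % (a :: blk 0).length) hm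
      rw [Nat.mul_comm, hd, ← e1] at e2
      exact List.mem_of_getElem? e2
    exact main_one h hbs hba hu
  · push Not at hall
    obtain ⟨k, hk⟩ := hall
    exact main_two h hx (hblk_occ _ (hposa k)) (hblk_occ 0 hu0) (hblk_na _) (hblk_na _) hk

/-- **Levé and Richomme's question, positive answer.** Let `f` be a morphism of the free monoid
over an arbitrary alphabet and `a` a letter such that `f` generates the infinite word
`u = f^ω(a)` and `u` is quasiperiodic. If `f(a)` is not a power of `a`, then `f` is weakly
quasiperiodic on infinite words. -/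
theorem result {A : Type*} (f : FreeMonoid A →* FreeMonoid A) (a : A) (u : ℕ → A)
    (hgen : Generates f a u) (hquasi : Quasiperiodic u)
    (hpow : ¬ ∃ k : ℕ, f (FreeMonoid.of a) = FreeMonoid.of a ^ k) :
    WeaklyQuasiperiodic f := by
  obtain ⟨⟨t, ht⟩, hun, hpre⟩ := hgen
  let F : List A → List A := fun x => (f (FreeMonoid.ofList x)).toList
  have hmor : Mor F := by
    constructor
    · change (f 1).toList = []
      rw [map_one]
      rfl
    · intro x y
      change (f (FreeMonoid.ofList (x ++ y))).toList = _
      rw [FreeMonoid.ofList_append, map_mul, FreeMonoid.toList_mul]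
  have hiter : ∀ n, F^[n] [a] = (f^[n] (FreeMonoid.of a)).toList := by
    intro n
    induction n with
    | zero => rfl
    | succ n ih => rw [Function.iterate_succ_apply', Function.iterate_succ_apply', ih]; rfl
  have hgenF : Gen F a t.toList u := by
    refine ⟨hmor, ?_, ?_, ?_⟩
    · change (f (FreeMonoid.of a)).toList = _
      rw [ht, FreeMonoid.toList_mul]
      rfl
    · intro L
      obtain ⟨n, hn⟩ := hun L
      refine ⟨n, ?_⟩
      rw [hiter]
      exact hn
    · intro n
      rw [hiter]
      exact hpre n
  have hne : ∃ b ∈ F [a], b ≠ a := by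
    by_contra hcon
    push Not at hcon
    apply hpow
    refine ⟨(F [a]).length, ?_⟩
    have h1 : F [a] = List.replicate (F [a]).length a := List.eq_replicate_iff.mpr ⟨rfl, hcon⟩
    have h2 : ∀ k : ℕ, (FreeMonoid.of a ^ k).toList = List.replicate k a := by
      intro k
      induction k with
      | zero => rfl
      | succ k ih => rw [pow_succ', FreeMonoid.toList_mul, ih]; rfl
    apply FreeMonoid.toList.injective
    rw [h2]
    exact h1
  obtain ⟨w, v, h1, h2, h3⟩ := main hgenF hquasi hne
  exact ⟨w, v, h1, h2, h3⟩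

end Pool.Agent.Results.MP_c0e3d8_co.LeveRichomme
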